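import Mathlib
import Pool.Agent.Q19.MLR.Hull

set_option autoImplicit false

namespace Pool.Agent.Results.MP_b0d7fb_nt.DiagonalInHull

open Pool.Agent.Q19.MLR

/-- For `k = 3` the diagonal point `(1/4, 1/4, 1/4)` lies in `MLPS 3` and is a convex combination
of finitely many points of the upper boundary of `MLPS 3`, all different from it. -/
theorem result : diagPt 3 ∈ MLPS 3 ∧ diagPt 3 ∈ convexHull ℝ (UB 3 \ {diagPt 3}) :=
  ⟨diag_mem, main⟩

end Pool.Agent.Results.MP_b0d7fb_nt.DiagonalInHull
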